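import Mathlib
import Pool.Agent.P.MP_50d982_co.Defs
import Pool.Agent.P.MP_50d982_co.Arr

namespace Pool.Agent.Results.MP_50d982_co.HalfTranslates

open Pool.Agent.P.MP_50d982_co

/-- Let `G` be an abelian group of prime power order `q`. An array with `2q-1` layers has a
transversal if along one diagonal `x` some `q-1` layers are translates of one bijection `g`.
The other `q` layers are arbitrary. -/
theorem result (G : Type) [AddCommGroup G] [Fintype G] (p r : ℕ) (hp : p.Prime)
    (hq : Fintype.card G = p ^ r) (m : ℕ)
    (C : Fin (2 * Fintype.card G - 1) → (Fin m → G) → G)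
    (x : G → Fin m → G) (hx : ∀ j, Function.Bijective fun t => x t j)
    (g : G → G) (hg : Function.Bijective g)
    (J : Finset (Fin (2 * Fintype.card G - 1))) (hJ : J.card = Fintype.card G - 1)
    (hC : ∀ i ∈ J, ∃ c : G, ∀ t, C i (x t) = g t + c) : HasTransversal C := by
  classical
  have := Fintype.card_pos (α := G)
  exact half_translates hp hq (by omega) C x hx g hg J (by omega) hC

end Pool.Agent.Results.MP_50d982_co.HalfTranslates
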