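import Mathlib
import Pool.Agent.P.MP_50d982_co.Defs
import Pool.Agent.P.MP_50d982_co.HD2

namespace Pool.Agent.Results.MP_50d982_co.ManySymbols

open Pool.Agent.P.MP_50d982_co

/-- In high dimension a latin cuboid of order `q` with `2q-1` layers has a transversal if some
set `W` of at most `q+2` layers shows on average at least `(q+7)/2` different symbols at a
position. -/
theorem result (Q : Type) [Fintype Q] [Nonempty Q] (m : ℕ)
    (C : Fin (2 * Fintype.card Q - 1) → (Fin m → Q) → Q) (hC : ∀ i, IsLatin (C i))
    (hm : Fintype.card Q ^ (2 * Fintype.card Q) ≤ 2 ^ m)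
    (W : Finset (Fin (2 * Fintype.card Q - 1))) (hW : W.card ≤ Fintype.card Q + 2)
    (hd : (Fintype.card Q + 7) * Fintype.card Q ^ m ≤
      2 * ∑ x : Fin m → Q, Set.ncard {s | ∃ i ∈ W, C i x = s}) :
    HasTransversal C := by
  classical
  have hq : 0 < Fintype.card Q := Fintype.card_pos
  refine spread C hC W (by omega) hW hq (hd.trans_eq ?_) hm
  congr 1
  refine Finset.sum_congr rfl fun x _ => ?_
  rw [← Set.ncard_coe_finset]
  congr 1
  ext s
  simp

end Pool.Agent.Results.MP_50d982_co.ManySymbols
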