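import Mathlib
import Pool.Agent.P.MP_50d982_co.Defs
import Pool.Agent.P.MP_50d982_co.HD3

namespace Pool.Agent.Results.MP_50d982_co.NearTransversal

open Pool.Agent.P.MP_50d982_co

/-- In high dimension any `q-1` latin cubes `f t` (`t ≠ c`) of order `q` show any prescribed
symbols `s t` on `q-1` cells of one diagonal. -/
theorem result (Q : Type) [Fintype Q] (m : ℕ)
    (hm : 16 * Fintype.card Q ^ (Fintype.card Q - 1) < 2 ^ m) (c : Q)
    (f : Q → (Fin m → Q) → Q) (hf : ∀ t, t ≠ c → IsLatin (f t)) (s : Q → Q) :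
    ∃ x : Q → Fin m → Q, (∀ j, Function.Bijective fun t => x t j) ∧
      ∀ t, t ≠ c → f t (x t) = s t := by
  classical
  obtain ⟨π, hπ⟩ := near_main hm c f hf s
  exact ⟨pt π, fun j => (π j).bijective, hπ⟩

end Pool.Agent.Results.MP_50d982_co.NearTransversal
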