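import Mathlib
import Pool.Agent.P.MP_50d982_co.Defs
import Pool.Agent.P.MP_50d982_co.Main

namespace Pool.Agent.Results.MP_50d982_co.UnequalSlopes

open Pool.Agent.P.MP_50d982_co

/-- A latin cuboid of prime order `p` with `2p-1` layers, all affine in one coordinate `j` with
slopes not all equal, has a transversal. -/
theorem result (p : ℕ) (hp : p.Prime) (m : ℕ) (C : Fin (2 * p - 1) → (Fin m → ZMod p) → ZMod p)
    (hC : ∀ i, IsLatin (C i)) (j : Fin m) (a : Fin (2 * p - 1) → ZMod p)
    (ha : ∀ i, AffineIn (C i) j (a i)) (hne : ∃ i i', a i ≠ a i') : HasTransversal C := by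
  have : Fact p.Prime := ⟨hp⟩
  obtain ⟨i, i', h⟩ := hne
  exact different_slopes C hC j a ha i i' h

end Pool.Agent.Results.MP_50d982_co.UnequalSlopes
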